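import Mathlib

/-!
# Fast null sequences of characters of `ℤ`: the circle part
-/

set_option autoImplicit false

open Set Filter

namespace Pool.Agent.Q151.Mackey

/-- the circle `ℝ / ℤ` -/
abbrev T := AddCircle (1 : ℝ)

lemma norm_coe_le (u : ℝ) : ‖(u : T)‖ ≤ |u| := by
  rw [UnitAddCircle.norm_eq]
  simpa using round_le u 0

lemma norm_coe_eq {u : ℝ} (h : |u| ≤ 1 / 2) : ‖(u : T)‖ = |u| := by
  rw [AddCircle.norm_coe_eq_abs_iff (1 : ℝ) one_ne_zero]
  simpa using h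

lemma exists_rep (z : T) : ∃ u : ℝ, (u : T) = z ∧ |u| = ‖z‖ := by
  induction z using QuotientAddGroup.induction_on with
  | H x =>
    refine ⟨x - round x, ?_, ?_⟩
    · have : ((round x : ℝ) : T) = 0 := by
        rw [AddCircle.coe_eq_zero_iff]
        exact ⟨round x, by simp⟩
      rw [AddCircle.coe_sub, this, sub_zero]
    · exact (UnitAddCircle.norm_eq (x := x)).symm

lemma zsmul_coe (n : ℤ) (u : ℝ) : n • (u : T) = ((n * u : ℝ) : T) := by
  rw [← AddCircle.coe_zsmul, zsmul_eq_mul]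

lemma norm_zs (n : ℤ) (z : T) : ‖n • z‖ ≤ |(n : ℝ)| * ‖z‖ := by
  have := norm_zsmul_le n z
  rwa [Int.norm_eq_abs] at this

lemma norm_half_le (z : T) : ‖z‖ ≤ 1 / 2 := by
  have := AddCircle.norm_le_half_period (1 : ℝ) (x := z) one_ne_zero
  simpa using this

lemma double {z : T} (h : ‖z‖ ≤ 1 / 4) : ‖(2 : ℤ) • z‖ = 2 * ‖z‖ := by
  obtain ⟨u, rfl, hu⟩ := exists_rep z
  rw [zsmul_coe, norm_coe_eq, norm_coe_eq, abs_mul]
  · simp
  · linarith
  · rw [abs_mul]; simp; linarith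

lemma pow_double {z : T} {m : ℕ} (h : ∀ i ≤ m, ‖((2 : ℤ) ^ i) • z‖ ≤ 1 / 4) :
    ∀ i ≤ m, ‖((2 : ℤ) ^ i) • z‖ = 2 ^ i * ‖z‖ := by
  intro i
  induction i with
  | zero => intro _; simp
  | succ i ih =>
    intro hi
    have h1 := ih (by omega)
    have h2 := double (h i (by omega))
    rw [pow_succ, mul_comm, mul_smul, h2, h1]
    ring

lemma le_of_pow {z : T} {m : ℕ} (h : ∀ i ≤ m, ‖((2 : ℤ) ^ i) • z‖ ≤ 1 / 4) :
    ‖z‖ ≤ 1 / (4 * 2 ^ m) := by
  have h1 := pow_double h m le_rfl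
  have h2 := h m le_rfl
  rw [h1] at h2
  rw [le_div_iff₀ (by positivity)]
  nlinarith

lemma eq_zero_of_all {z : T} (h : ∀ n : ℤ, ‖n • z‖ ≤ 1 / 4) : z = 0 := by
  by_contra hz
  have hz0 : 0 < ‖z‖ := norm_pos_iff.mpr hz
  obtain ⟨m, hm⟩ := exists_nat_gt (1 / ‖z‖)
  have h1 := le_of_pow (z := z) (m := m) (fun i _ => h _)
  rw [le_div_iff₀ (by positivity)] at h1
  have h2 : (m : ℝ) < 2 ^ m := by exact_mod_cast Nat.lt_two_pow_self
  rw [div_lt_iff₀ hz0] at hm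
  nlinarith

/-- the polar of a set of integers -/
def Pol (U : Set ℤ) : Set T := {x | ∀ n ∈ U, ‖n • x‖ ≤ 1 / 4}

/-- the Bohr set -/
def Bs (S : Set T) (c : ℝ) : Set ℤ := {n | ∀ a ∈ S, ‖n • a‖ ≤ c}

lemma Bs_mono {S S' : Set T} {c c' : ℝ} (h : S' ⊆ S) (hc : c ≤ c') : Bs S c ⊆ Bs S' c' :=
  fun _ hn a ha => (hn a (h ha)).trans hc

lemma Bs_pow {S : Set T} {c : ℝ} {m : ℕ} {n : ℤ} (hn : n ∈ Bs S (c / 2 ^ m)) :
    ∀ i ≤ m, (2 : ℤ) ^ i * n ∈ Bs S c := by
  intro i hi a ha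
  have h1 := hn a ha
  have h2 := norm_zs ((2 : ℤ) ^ i) (n • a)
  rw [mul_smul]
  have h3 : |(((2 : ℤ) ^ i : ℤ) : ℝ)| = 2 ^ i := by push_cast; exact abs_of_pos (by positivity)
  rw [h3] at h2
  have h4 : (2 : ℝ) ^ i ≤ 2 ^ m := pow_le_pow_right₀ (by norm_num) hi
  have h0 : (0 : ℝ) ≤ ‖n • a‖ := norm_nonneg _
  calc ‖(2 : ℤ) ^ i • n • a‖ ≤ 2 ^ i * ‖n • a‖ := h2
    _ ≤ 2 ^ m * ‖n • a‖ := by gcongr
    _ ≤ 2 ^ m * (c / 2 ^ m) := by gcongr
    _ = c := by field_simp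

/-- elements of the polar are small on smaller Bohr sets -/
lemma Pol_small {U : Set ℤ} {y : T} (hy : y ∈ Pol U) {m : ℕ} {n : ℤ}
    (hn : ∀ i ≤ m, (2 : ℤ) ^ i * n ∈ U) : ‖n • y‖ ≤ 1 / (4 * 2 ^ m) := by
  apply le_of_pow
  intro i hi
  rw [← mul_smul]
  exact hy _ (hn i hi)

/-- a set of integers which meets all intervals of length `G` -/
def Syn (A : Set ℤ) (G : ℕ) : Prop := ∀ t : ℤ, ∃ n ∈ A, t ≤ n ∧ n ≤ t + G

/-- no jumps -/
lemma nojump {A : Set ℤ} {G : ℕ} (hA : Syn A G) {u : ℝ} (hu : (G + 1) * |u| ≤ 1 / 8)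
    {R : ℤ} (hR : ∀ n ∈ A, 0 ≤ n → n ≤ R → ‖((n * u : ℝ) : T)‖ ≤ 1 / 8) :
    ∀ n ∈ A, 0 ≤ n → n ≤ R → n * |u| ≤ 1 / 8 := by
  have key : ∀ N : ℕ, ∀ n ∈ A, 0 ≤ n → n ≤ R → n ≤ (N : ℤ) → n * |u| ≤ 1 / 8 := by
    intro N
    induction N with
    | zero =>
      intro n _ h0 _ h2
      have : n = 0 := by omega
      subst this
      simp
    | succ N ih =>
      intro n hn h0 h1 h2
      by_cases hle : n ≤ (N : ℤ)
      · exact ih n hn h0 h1 hle
      have hnN : n = N + 1 := by push_cast at h2; omega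
      have hsmall : n * |u| ≤ 1 / 2 := by
        by_cases hG : n ≤ (G : ℤ) + 1
        · have : (n : ℝ) ≤ G + 1 := by exact_mod_cast hG
          have := mul_le_mul_of_nonneg_right this (abs_nonneg u)
          linarith
        · obtain ⟨m, hm, hm1, hm2⟩ := hA (n - 1 - G)
          have h3 := ih m hm (by omega) (by omega) (by omega)
          have h4 : (n : ℝ) ≤ m + (G + 1) := by
            have : n ≤ m + (G + 1) := by omega
            exact_mod_cast this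
          have := mul_le_mul_of_nonneg_right h4 (abs_nonneg u)
          rw [add_mul] at this
          linarith
      have h5 := hR n hn h0 h1
      have h6 : |(n * u : ℝ)| = n * |u| := by
        rw [abs_mul, abs_of_nonneg (by exact_mod_cast h0)]
      rwa [norm_coe_eq (by rw [h6]; exact hsmall), h6] at h5
  intro n hn h0 h1
  exact key n.toNat n hn h0 h1 (by omega)

lemma nojump_zero {A : Set ℤ} {G : ℕ} (hA : Syn A G) {u : ℝ} (hu : (G + 1) * |u| ≤ 1 / 8)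
    (hR : ∀ n ∈ A, ‖((n * u : ℝ) : T)‖ ≤ 1 / 8) : u = 0 := by
  by_contra hne
  have hpos : 0 < |u| := abs_pos.mpr hne
  obtain ⟨N, hN⟩ := exists_nat_gt (1 / |u|)
  obtain ⟨n, hn, h1, _⟩ := hA N
  have h3 := nojump hA hu (R := n) (fun m hm _ _ => hR m hm) n hn (by omega) le_rfl
  have h4 : (N : ℝ) ≤ n := by exact_mod_cast h1
  rw [div_lt_iff₀ hpos] at hN
  have := mul_le_mul_of_nonneg_right h4 hpos.le
  linarith

lemma exists_close {E : Set T} (hE : E.Infinite) {δ : ℝ} (hδ : 0 < δ) :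
    ∃ x ∈ E, ∃ y ∈ E, x ≠ y ∧ ‖x - y‖ < δ := by
  by_contra hcon
  push Not at hcon
  have hc : IsCompact (univ : Set T) := isCompact_univ
  obtain ⟨F, -, hFf, hF⟩ := hc.finite_cover_balls (e := δ / 2) (by linarith)
  apply hE
  have hex : ∀ x : T, ∃ f ∈ F, x ∈ Metric.ball f (δ / 2) := by
    intro x
    have := hF (mem_univ x)
    simpa using this
  choose g hg1 hg2 using hex
  apply Set.Finite.of_finite_image (f := g) (hFf.subset (by rintro _ ⟨x, _, rfl⟩; exact hg1 x))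
  intro x hx y hy hxy
  by_contra hne
  have h1 := hcon x hx y hy hne
  have h2 := hg2 x
  have h3 := hg2 y
  rw [← hxy] at h3
  rw [Metric.mem_ball] at h2 h3
  have h4 : dist x y < δ := by
    calc dist x y ≤ dist x (g x) + dist y (g x) := dist_triangle_right _ _ _
      _ < δ := by linarith
  rw [dist_eq_norm] at h4
  linarith

/-- small positive real numbers representing elements of an infinite subgroup -/
lemma exists_small {H : AddSubgroup T} (hH : (H : Set T).Infinite) {δ : ℝ} (hδ : 0 < δ) :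
    ∃ r : ℝ, 0 < r ∧ r < δ ∧ (r : T) ∈ H := by
  obtain ⟨x, hx, y, hy, hne, hlt⟩ := exists_close hH hδ
  obtain ⟨u, hu, hn⟩ := exists_rep (x - y)
  have hmem : (u : T) ∈ H := by rw [hu]; exact H.sub_mem hx hy
  have hu0 : u ≠ 0 := by
    rintro rfl
    rw [AddCircle.coe_zero] at hu
    exact hne (sub_eq_zero.mp hu.symm)
  rcases lt_or_gt_of_ne hu0 with h | h
  · refine ⟨-u, by linarith, ?_, ?_⟩
    · rw [← abs_of_neg h, hn]; exact hlt
    · rw [AddCircle.coe_neg]; exact H.neg_mem hmem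
  · exact ⟨u, h, by rw [← abs_of_pos h, hn]; exact hlt, hmem⟩

/-- compactness: finitely many integers suffice up to a small error -/
lemma compactness (U : Set ℤ) {δ : ℝ} (hδ : 0 < δ) :
    ∃ N : ℕ, ∀ x : T, (∀ n ∈ U, |n| ≤ N → ‖n • x‖ ≤ 1 / 4) → ∃ y ∈ Pol U, ‖x - y‖ < δ := by
  by_contra hcon
  push Not at hcon
  let C : ℕ → Set T := fun N => {x | (∀ n ∈ U, |n| ≤ N → ‖n • x‖ ≤ 1 / 4) ∧
    ∀ y ∈ Pol U, δ ≤ ‖x - y‖}
  have hanti : ∀ N, C (N + 1) ⊆ C N := by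
    intro N x hx
    exact ⟨fun n hn h => hx.1 n hn (by push_cast; linarith), hx.2⟩
  have hne : ∀ N, (C N).Nonempty := by
    intro N
    obtain ⟨x, hx1, hx2⟩ := hcon N
    exact ⟨x, hx1, hx2⟩
  have hcl : ∀ N, IsClosed (C N) := by
    intro N
    have e : C N = (⋂ n ∈ U, ⋂ _ : |n| ≤ (N : ℤ), {x : T | ‖n • x‖ ≤ 1 / 4}) ∩
        ⋂ y ∈ Pol U, {x : T | δ ≤ ‖x - y‖} := by
      ext x; simp [C]
    rw [e]
    refine IsClosed.inter ?_ ?_
    · refine isClosed_biInter fun n _ => isClosed_iInter fun _ => ?_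
      exact isClosed_le (by fun_prop) continuous_const
    · refine isClosed_biInter fun y _ => ?_
      exact isClosed_le continuous_const (by fun_prop)
  obtain ⟨x, hx⟩ := IsCompact.nonempty_iInter_of_sequence_nonempty_isCompact_isClosed C hanti hne
    (hcl 0).isCompact hcl
  rw [mem_iInter] at hx
  have hxP : x ∈ Pol U := by
    intro n hn
    exact (hx n.natAbs).1 n hn (by rw [Int.abs_eq_natAbs])
  have := (hx 0).2 x hxP
  simp at this
  linarith

end Pool.Agent.Q151.Mackey
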