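import Pool.Agent.Q151.Mackey.Seq

/-!
# The key theorem on fast null sequences
-/

set_option autoImplicit false

open Set Filter

namespace Pool.Agent.Q151.Mackey

variable {H : AddSubgroup T} {h : ℕ → T} {r : ℕ → ℝ}

lemma Ak_fin_sub (hh : ∀ i, h i ∈ H) {p : ℕ} {S : Finset T} (hS : (S : Set T) ⊆ H) :
    ∃ S' : Finset T, (S' : Set T) ⊆ H ∧ Ak h p S = S' := by
  classical
  refine ⟨(Finset.range p).image h ∪ S, ?_, ?_⟩
  · rw [Finset.coe_union]
    apply union_subset _ hS
    intro a ha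
    simp only [Finset.coe_image, Finset.coe_range, mem_image, mem_Iio] at ha
    obtain ⟨i, _, rfl⟩ := ha
    exact hh i
  · ext a
    simp only [Ak, mem_ofPred_eq, Finset.coe_union, Finset.coe_image, Finset.coe_range, mem_union,
      mem_image, mem_Iio, Finset.mem_coe]
    constructor
    · rintro (⟨i, hi, rfl⟩ | h1)
      · exact Or.inl ⟨i, hi, rfl⟩
      · exact Or.inr h1
    · rintro (⟨i, hi, rfl⟩ | h1)
      · exact Or.inl ⟨i, hi, rfl⟩
      · exact Or.inr h1

lemma exists_lt (hr4 : ∀ k, r k ≤ 1 / (4 * (k + 1))) {ε : ℝ} (hε : 0 < ε) :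
    ∃ K : ℕ, ∀ k ≥ K, r k < ε := by
  obtain ⟨K, hK⟩ := exists_nat_gt (1 / ε)
  refine ⟨K, fun k hk => ?_⟩
  have h1 : (K : ℝ) ≤ k := by exact_mod_cast hk
  have h2 : 1 / ε < k + 1 := by linarith
  rw [div_lt_iff₀ hε] at h2
  have h3 : r k ≤ 1 / (4 * (k + 1)) := hr4 k
  have h4 : 1 / (4 * ((k : ℝ) + 1)) < ε := by
    rw [div_lt_iff₀ (by positivity)]
    nlinarith
  linarith

/-- claim C -/
lemma claimC (hr : ∀ k, 0 < r k) (h4 : ∀ k, r (k + 1) ≤ r k / 4)
    (hr4 : ∀ k, r k ≤ 1 / (4 * (k + 1)))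
    (hG : ∀ k, Good h k (Sk r k) (r k))
    {p : ℕ} (hp : 1 ≤ p) {x : T} (hx : x ∉ H) {y : ℕ → T} {u : ℕ → ℝ}
    (hy : ∀ k, p ≤ k → y k ∈ Pol (Bs (Ak h p (Sk r k)) (1 / p)))
    (hyH : ∀ k, p ≤ k → y k ∈ H)
    (hu : ∀ k, p ≤ k → (u k : T) = x - y k)
    (hup : ∀ k, p ≤ k → |u k| ≤ p * r k) (K : ℕ) :
    ∃ k ≥ K, p ≤ k ∧ r k / 32 ≤ |u k| := by
  by_contra hcon
  push Not at hcon
  have h14 : ∀ k, r k ≤ 1 / 4 := by
    intro k
    refine (hr4 k).trans ?_
    apply one_div_le_one_div_of_le (by norm_num)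
    have : (0 : ℝ) ≤ k := Nat.cast_nonneg k
    linarith
  set K' := max K p with hK'
  have hstep : ∀ k ≥ K', u k = u (k + 1) := by
    intro k hk
    have hkp : p ≤ k := le_trans (le_max_right _ _) hk
    have hkK : K ≤ k := le_trans (le_max_left _ _) hk
    have e1 := hcon k hkK hkp
    have e2 := hcon (k + 1) (by omega) (by omega)
    have e3 := h4 k
    have e4 := hr k
    have := stepB (h := h) hr h14 hG hp hkp (hy k hkp) (hy (k + 1) (by omega))
      (v := u k - u (k + 1)) (by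
        rw [AddCircle.coe_sub, hu k hkp, hu (k + 1) (by omega)]; abel) (by
        refine (abs_sub _ _).trans ?_
        linarith)
    linarith
  have hconst : ∀ k ≥ K', u k = u K' := by
    intro k hk
    induction k, hk using Nat.le_induction with
    | base => rfl
    | succ k hk ih => rw [← hstep k hk, ih]
  have hp0 : (0 : ℝ) < p := by exact_mod_cast hp
  have hzero : u K' = 0 := by
    by_contra hne
    have hpos : 0 < |u K'| := abs_pos.mpr hne
    obtain ⟨K2, hK2⟩ := exists_lt hr4 (show 0 < |u K'| / p by positivity)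
    have e1 := hK2 (max K2 K') (le_max_left _ _)
    have e2 := hup (max K2 K') (le_trans (le_max_right K p) (le_max_right _ _))
    rw [hconst _ (le_max_right _ _)] at e2
    rw [lt_div_iff₀ hp0] at e1
    linarith
  apply hx
  have e1 := hu K' (le_max_right _ _)
  rw [hzero, AddCircle.coe_zero] at e1
  have : x = y K' := (sub_eq_zero.mp e1.symm)
  rw [this]
  exact hyH K' (le_max_right _ _)

lemma pow_ge (k : ℕ) : ((k : ℝ) + 1) ≤ 2 ^ k := by
  have : k + 1 ≤ 2 ^ k := Nat.lt_two_pow_self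
  exact_mod_cast this

/-- claim D -/
lemma claimD (hr : ∀ k, 0 < r k)
    (hG : ∀ k, Good h k (Sk r k) (r k))
    {p : ℕ} (hp : 1 ≤ p) {x y : T} {k : ℕ} (hk : 128 * p ≤ k) {u : ℝ}
    (hy : y ∈ Pol (Bs (Ak h p (Sk r k)) (1 / p)))
    (hu : (u : T) = x - y) (hup : |u| ≤ p * r k) (hlow : r k / 32 ≤ |u|) :
    ∃ n ∈ Bs (Ak h k (Sk r k)) (th k), |(n : ℝ)| * r k ≤ 1 / (16 * p) ∧
      ∃ z : ℝ, (z : T) = n • x ∧ 1 / (2048 * p) ≤ z ∧ z ≤ 1 / 8 := by
  obtain ⟨G, N, hsyn, hGr, -, -⟩ := hG k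
  have hp0 : (0 : ℝ) < p := by exact_mod_cast hp
  have hrk := hr k
  have hk' : 128 * (p : ℝ) ≤ k := by exact_mod_cast hk
  have hkp : p ≤ k := by omega
  set a : ℝ := 1 / (16 * p) with ha
  have ha0 : 0 < a := by positivity
  -- choose n0
  obtain ⟨n0, hn0, hn1, hn2⟩ := hsyn ⌈a / (2 * r k)⌉
  have c1 : a / (2 * r k) ≤ ⌈a / (2 * r k)⌉ := Int.le_ceil _
  have c2 : (⌈a / (2 * r k)⌉ : ℝ) < a / (2 * r k) + 1 := Int.ceil_lt_add_one _
  have d1 : (⌈a / (2 * r k)⌉ : ℝ) ≤ n0 := by exact_mod_cast hn1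
  have d2 : (n0 : ℝ) ≤ ⌈a / (2 * r k)⌉ + G := by exact_mod_cast hn2
  have hn0pos : (0 : ℝ) < n0 := lt_of_lt_of_le (by positivity) (c1.trans d1)
  have hlo : a / 2 ≤ n0 * r k := by
    have := mul_le_mul_of_nonneg_right (c1.trans d1) hrk.le
    have e : a / (2 * r k) * r k = a / 2 := by field_simp
    linarith
  have hhi : (n0 : ℝ) * r k ≤ a := by
    have h1 : (n0 : ℝ) ≤ a / (2 * r k) + 1 + G := by linarith
    have h2 := mul_le_mul_of_nonneg_right h1 hrk.le
    have e : (a / (2 * r k) + 1 + G) * r k = a / 2 + (G + 1) * r k := by field_simp; ring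
    rw [e] at h2
    have h3 : (1 : ℝ) / (64 * (k + 1)) ≤ a / 2 := by
      rw [ha, div_div]
      apply one_div_le_one_div_of_le (by positivity)
      nlinarith
    nlinarith
  -- the sign
  obtain ⟨n, hn, hnabs, hnu⟩ : ∃ n ∈ Bs (Ak h k (Sk r k)) (th k), |(n : ℝ)| = n0 ∧
      (n : ℝ) * u = n0 * |u| := by
    rcases le_or_gt 0 u with h | h
    · exact ⟨n0, hn0, abs_of_pos hn0pos, by rw [abs_of_nonneg h]⟩
    · refine ⟨-n0, ?_, ?_, ?_⟩
      · intro b hb
        rw [neg_smul, norm_neg]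
        exact hn0 b hb
      · push_cast; rw [abs_neg, abs_of_pos hn0pos]
      · rw [abs_of_neg h]; push_cast; ring
  obtain ⟨e, he, hen⟩ := exists_rep (n • y)
  have he1 : |e| ≤ 1 / (4 * 2 ^ (k + 2)) := by
    rw [hen]
    apply Pol_small hy
    intro i hi
    exact Bs_pow (Bs_mono (Ak_mono hkp (le_refl _)) (th_le (m := k + 2) hp hkp le_rfl) hn) i hi
  have he2 : |e| ≤ 1 / (2048 * p) := by
    refine he1.trans ?_
    apply one_div_le_one_div_of_le (by positivity)
    have h1 := pow_ge k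
    have h2 : (2 : ℝ) ^ (k + 2) = 4 * 2 ^ k := by ring
    rw [h2]
    nlinarith
  have hu1 : 1 / (1024 * p) ≤ (n : ℝ) * u := by
    rw [hnu]
    have h1 : a / 2 / 32 ≤ n0 * |u| := by
      calc a / 2 / 32 ≤ n0 * r k / 32 := by gcongr
        _ = n0 * (r k / 32) := by ring
        _ ≤ n0 * |u| := by gcongr
    have h2 : a / 2 / 32 = 1 / (1024 * p) := by rw [ha]; field_simp; norm_num
    rwa [h2] at h1
  have hu2 : (n : ℝ) * u ≤ 1 / 16 := by
    rw [hnu]
    calc (n0 : ℝ) * |u| ≤ n0 * (p * r k) := by gcongr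
      _ = p * (n0 * r k) := by ring
      _ ≤ p * a := by gcongr
      _ = 1 / 16 := by rw [ha]; field_simp
  have hpe : (1 : ℝ) / (2048 * p) ≤ 1 / 2048 := by
    apply one_div_le_one_div_of_le (by norm_num)
    have : (1 : ℝ) ≤ p := by exact_mod_cast hp
    linarith
  have hhalf : (1 : ℝ) / (1024 * p) = 1 / (2048 * p) + 1 / (2048 * p) := by field_simp; norm_num
  have := abs_le.mp he2
  refine ⟨n, hn, by rw [hnabs]; exact hhi, n * u + e, ?_, ?_, ?_⟩
  · rw [AddCircle.coe_add, he, ← zsmul_coe, hu, ← smul_add, sub_add_cancel]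
  · rw [hhalf] at hu1
    linarith
  · linarith

/-- claim E -/
lemma claimE (hr : ∀ k, 0 < r k) (h4 : ∀ k, r (k + 1) ≤ r k / 4)
    (hr4 : ∀ k, r k ≤ 1 / (4 * (k + 1)))
    {p : ℕ} (hp : 1 ≤ p) {x : T}
    (hx : ∀ n ∈ W h r p, ‖n • x‖ ≤ 1 / 4)
    (hD : ∀ K : ℕ, ∃ k ≥ K, p ≤ k ∧ ∃ n ∈ Bs (Ak h k (Sk r k)) (th k),
      |(n : ℝ)| * r k ≤ 1 / (16 * p) ∧
      ∃ z : ℝ, (z : T) = n • x ∧ 1 / (2048 * p) ≤ z ∧ z ≤ 1 / 8) : False := by
  have hp0 : (0 : ℝ) < p := by exact_mod_cast hp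
  have key : ∀ t : ℕ, ∃ (N : ℤ) (v c : ℝ), 0 ≤ c ∧ c < 1 / (4 * p) ∧
      (∀ i < p, ‖N • h i‖ ≤ c) ∧ (∀ j, ‖N • (r j : T)‖ ≤ 1 / (8 * p) + c) ∧
      (v : T) = N • x ∧ t * (1 / (2048 * p)) ≤ v ∧ v ≤ 1 / 4 := by
    intro t
    induction t with
    | zero =>
      refine ⟨0, 0, 0, le_rfl, by positivity, ?_, ?_, ?_, ?_, ?_⟩
      · intro i _; simp
      · intro j; simp only [zero_smul, norm_zero]; positivity
      · simp
      · simp
      · norm_num
    | succ t ih =>
      obtain ⟨N, v, c, hc0, hc, hN1, hN2, hv, hv1, hv2⟩ := ih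
      have hgap : 0 < (1 / (4 * p) - c) / 2 := by linarith
      obtain ⟨K1, hK1⟩ := exists_nat_gt (1 / ((1 / (4 * p) - c) / 2))
      obtain ⟨K2, hK2⟩ := exists_lt hr4 (ε := 1 / (16 * p) / (|(N : ℝ)| + 1)) (by positivity)
      obtain ⟨k, hkK, hkp, n, hn, hnr, z, hz, hz1, hz2⟩ := hD (max K1 K2)
      have hk1 : K1 ≤ k := le_trans (le_max_left _ _) hkK
      have hk2 : K2 ≤ k := le_trans (le_max_right _ _) hkK
      have hth : th k ≤ (1 / (4 * p) - c) / 2 := by
        have h1 : 1 / ((1 / (4 * p) - c) / 2) < k + 1 := by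
          have : (K1 : ℝ) ≤ k := by exact_mod_cast hk1
          linarith
        rw [div_lt_iff₀ hgap] at h1
        unfold th
        rw [div_le_iff₀ (by positivity)]
        have h2 : (1 : ℝ) ≤ 2 ^ (k + 2) := one_le_pow₀ (by norm_num)
        have h3 : (0 : ℝ) ≤ (1 / (4 * p) - c) / 2 * (k + 1) := by positivity
        nlinarith
      have hNr : |(N : ℝ)| * r k ≤ 1 / (16 * p) := by
        have h1 := (hK2 k hk2).le
        rw [le_div_iff₀ (by positivity)] at h1
        have := hr k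
        nlinarith
      have hthp := th_pos k
      refine ⟨N + n, v + z, c + th k, by linarith, by linarith, ?_, ?_, ?_, ?_, ?_⟩
      · intro i hi
        rw [add_smul]
        refine (norm_add_le _ _).trans (add_le_add (hN1 i hi) (hn _ (Or.inl ⟨i, by omega, rfl⟩)))
      · intro j
        rw [add_smul]
        by_cases hj : j < k
        · refine (norm_add_le _ _).trans ?_
          have e1 := hN2 j
          have e2 := hn _ (Or.inr (mem_Sk.mpr ⟨j, hj, rfl⟩))
          linarith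
        · refine (norm_add_le _ _).trans ?_
          have hjk := anti hr h4 (show k ≤ j by omega)
          have e1 : ‖N • (r j : T)‖ ≤ 1 / (16 * p) := by
            refine (norm_rj (hr j)).trans (le_trans ?_ hNr)
            gcongr
          have e2 : ‖n • (r j : T)‖ ≤ 1 / (16 * p) := by
            refine (norm_rj (hr j)).trans (le_trans ?_ hnr)
            gcongr
          have e3 : (1 : ℝ) / (8 * p) = 1 / (16 * p) + 1 / (16 * p) := by field_simp; norm_num
          rw [e3]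
          linarith
      · rw [AddCircle.coe_add, hv, hz, add_smul]
      · push_cast
        linarith
      · -- the bound
        have hW : N + n ∈ W h r p := by
          have e1 : c + th k ≤ 1 / (4 * p) := by linarith
          have e2 : (1 : ℝ) / (8 * p) + 1 / (4 * p) ≤ 1 / p := by
            have : (1 : ℝ) / p - (1 / (8 * p) + 1 / (4 * p)) = 5 / (8 * p) := by
              field_simp; norm_num
            have h5 : (0 : ℝ) < 5 / (8 * p) := by positivity
            linarith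
          have e3 : (0 : ℝ) < 1 / (8 * p) := by positivity
          refine ⟨fun i hi => ?_, fun j => ?_⟩
          · rw [add_smul]
            have f1 := norm_add_le (N • h i) (n • h i)
            have f2 := hN1 i hi
            have f3 := hn _ (Or.inl ⟨i, by omega, rfl⟩)
            linarith
          · rw [add_smul]
            by_cases hj : j < k
            · have f1 := norm_add_le (N • (r j : T)) (n • (r j : T))
              have f2 := hN2 j
              have f3 := hn _ (Or.inr (mem_Sk.mpr ⟨j, hj, rfl⟩))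
              linarith
            · have hjk := anti hr h4 (show k ≤ j by omega)
              have f1 := norm_add_le (N • (r j : T)) (n • (r j : T))
              have f2 : ‖N • (r j : T)‖ ≤ 1 / (16 * p) := by
                refine (norm_rj (hr j)).trans (le_trans ?_ hNr)
                gcongr
              have f3 : ‖n • (r j : T)‖ ≤ 1 / (16 * p) := by
                refine (norm_rj (hr j)).trans (le_trans ?_ hnr)
                gcongr
              have e4 : (1 : ℝ) / (8 * p) = 1 / (16 * p) + 1 / (16 * p) := by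
                field_simp; norm_num
              have e5 : (0 : ℝ) < 1 / (4 * p) := by positivity
              linarith
        have h1 := hx _ hW
        have h2 : ((v + z : ℝ) : T) = (N + n) • x := by rw [AddCircle.coe_add, hv, hz, add_smul]
        have hnn : 0 ≤ v + z := by
          have : (0 : ℝ) ≤ t * (1 / (2048 * p)) := by positivity
          have : (0 : ℝ) < 1 / (2048 * p) := by positivity
          linarith
        rw [← h2, norm_coe_eq (by rw [abs_of_nonneg hnn]; linarith), abs_of_nonneg hnn] at h1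
        exact h1
  obtain ⟨t, ht⟩ := exists_nat_gt ((1 / 4) / (1 / (2048 * (p : ℝ))))
  obtain ⟨N, v, c, -, -, -, -, -, h1, h2⟩ := key t
  rw [div_lt_iff₀ (by positivity)] at ht
  linarith

/-- **the key theorem** -/
theorem core (hH : (H : Set T).Infinite) (hh : ∀ i, h i ∈ H)
    (hsyn : ∀ S : Finset T, (S : Set T) ⊆ H → ∀ c : ℝ, 0 < c → ∃ G, Syn (Bs S c) G)
    (hpol : ∀ S : Finset T, (S : Set T) ⊆ H → ∀ c : ℝ, 0 < c → Pol (Bs S c) ⊆ H) :
    ∃ r : ℕ → ℝ, (∀ k, 0 < r k) ∧ (∀ k, (r k : T) ∈ H) ∧ (∀ k, r (k + 1) ≤ r k / 4) ∧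
      r 0 ≤ 1 / 4 ∧
      ∀ p : ℕ, 1 ≤ p → ∀ x : T, (∀ n ∈ W h r p, ‖n • x‖ ≤ 1 / 4) → x ∈ H := by
  classical
  obtain ⟨r, hr, h4, h0⟩ := rec_exists (H := H) (P := Good h)
    (fun k S hS δ hδ => good_exists hH hh hsyn k S hS δ hδ)
  have hr0 : ∀ k, 0 < r k := fun k => (hr k).1
  have hrH : ∀ k, (r k : T) ∈ H := fun k => (hr k).2.1
  have hG : ∀ k, Good h k (Sk r k) (r k) := by
    intro k
    have := (hr k).2.2
    have e : Sk r k = (Finset.range k).image (fun j => (r j : T)) := by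
      ext a
      rw [mem_Sk]
      simp
    rw [e]
    exact this
  have hr4 := small h4 h0
  refine ⟨r, hr0, hrH, h4, h0, ?_⟩
  intro p hp x hx
  by_contra hxH
  have hp0 : (0 : ℝ) < p := by exact_mod_cast hp
  have hA : ∀ k, p ≤ k → ∃ y ∈ Pol (Bs (Ak h p (Sk r k)) (1 / p)), ∃ u : ℝ,
      (u : T) = x - y ∧ |u| ≤ p * r k := fun k hk => stepA hr0 h4 hG hp hx hk
  choose! y hy u hu hup using hA
  have hSH : ∀ k, ((Sk r k : Finset T) : Set T) ⊆ H := by
    intro k a ha
    obtain ⟨j, _, rfl⟩ := mem_Sk.mp ha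
    exact hrH j
  have hyH : ∀ k, p ≤ k → y k ∈ H := by
    intro k hk
    obtain ⟨S', hS', hS'e⟩ := Ak_fin_sub (h := h) hh (p := p) (hSH k)
    have := hy k hk
    rw [hS'e] at this
    exact hpol S' hS' _ (by positivity) this
  refine claimE (h := h) hr0 h4 hr4 hp hx ?_
  intro K
  obtain ⟨k, hk, hkp, hlow⟩ := claimC (H := H) hr0 h4 hr4 hG hp hxH hy hyH hu hup (max K (128 * p))
  refine ⟨k, le_trans (le_max_left _ _) hk, hkp, ?_⟩
  exact claimD hr0 hG hp (le_trans (le_max_right _ _) hk) (hy k hkp) (hu k hkp) (hup k hkp) hlow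

end Pool.Agent.Q151.Mackey
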