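import Pool.Agent.Q151.Mackey.Key

/-!
# Group topologies on `ℤ`: the topological part
-/

set_option autoImplicit false
set_option linter.style.haveILetI false
set_option linter.unusedSectionVars false
set_option warn.classDefReducibility false

open Set Filter Topology

namespace Pool.Agent.Q151.Mackey

/-- the characters (continuous homomorphisms `ℤ → ℝ/ℤ`) of a topology on `ℤ` -/
def Chars (τ : TopologicalSpace ℤ) : Set (ℤ →+ T) := {χ | @Continuous ℤ T τ _ χ}

/-- `𝕋₊ = [-1/4, 1/4] + ℤ` -/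
def Tplus : Set T := (fun x : ℝ => (x : T)) '' Icc (-(1 / 4)) (1 / 4)

/-- quasi-convex sets of integers -/
def QuasiConvex (τ : TopologicalSpace ℤ) (A : Set ℤ) : Prop :=
  ∀ x, x ∉ A → ∃ χ ∈ Chars τ, (∀ a ∈ A, χ a ∈ Tplus) ∧ χ x ∉ Tplus

/-- locally quasi-convex topologies on `ℤ` -/
def LocallyQuasiConvex (τ : TopologicalSpace ℤ) : Prop :=
  ∀ U ∈ @nhds ℤ τ 0, ∃ V ∈ @nhds ℤ τ 0, QuasiConvex τ V ∧ V ⊆ U

/-- precompact topologies on `ℤ` -/
def Precompact (τ : TopologicalSpace ℤ) : Prop :=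
  ∀ U ∈ @nhds ℤ τ 0, ∃ F : Set ℤ, F.Finite ∧ ∀ n : ℤ, ∃ f ∈ F, ∃ u ∈ U, f + u = n

lemma mem_Tplus {z : T} : z ∈ Tplus ↔ ‖z‖ ≤ 1 / 4 := by
  constructor
  · rintro ⟨x, ⟨h1, h2⟩, rfl⟩
    exact (norm_coe_le x).trans (abs_le.mpr ⟨by linarith, h2⟩)
  · intro h
    obtain ⟨u, hu, hn⟩ := exists_rep z
    rw [← hn, abs_le] at h
    exact ⟨u, ⟨by linarith [h.1], h.2⟩, hu⟩

/-- the character with value `x` at `1` -/
def chi (x : T) : ℤ →+ T := (zmultiplesHom T) x

@[simp] lemma chi_apply (x : T) (n : ℤ) : chi x n = n • x := by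
  simp [chi]

lemma eq_chi (χ : ℤ →+ T) : χ = chi (χ 1) := by
  ext; simp

section one
variable (τ : TopologicalSpace ℤ)

/-- the dual group as a subgroup of the circle -/
def dual : AddSubgroup T where
  carrier := {x | @Continuous ℤ T τ _ (chi x)}
  zero_mem' := by
    show @Continuous ℤ T τ _ (chi 0)
    have : (chi 0 : ℤ → T) = fun _ => 0 := by ext n; simp
    rw [this]
    exact continuous_const
  add_mem' := by
    intro a b ha hb
    show @Continuous ℤ T τ _ (chi (a + b))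
    have : (chi (a + b) : ℤ → T) = fun n => chi a n + chi b n := by ext n; simp
    rw [this]
    exact Continuous.add ha hb
  neg_mem' := by
    intro a ha
    show @Continuous ℤ T τ _ (chi (-a))
    have : (chi (-a) : ℤ → T) = fun n => -chi a n := by ext n; simp
    rw [this]
    exact Continuous.neg ha

lemma mem_dual {x : T} : x ∈ dual τ ↔ @Continuous ℤ T τ _ (chi x) := Iff.rfl

lemma mem_Chars {χ : ℤ →+ T} : χ ∈ Chars τ ↔ χ 1 ∈ dual τ := by
  rw [mem_dual, ← eq_chi]; rfl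

variable [hg : @IsTopologicalAddGroup ℤ τ _]

lemma mul_nhds (j : ℕ) {U : Set ℤ} (hU : U ∈ @nhds ℤ τ 0) :
    {n : ℤ | (j : ℤ) * n ∈ U} ∈ @nhds ℤ τ 0 := by
  letI := τ
  haveI := hg
  have hc : Continuous (fun n : ℤ => (j : ℤ) * n) := by
    have : (fun n : ℤ => (j : ℤ) * n) = fun n : ℤ => j • n := by
      ext n; simp
    rw [this]
    exact continuous_nsmul j
  have := hc.continuousAt (x := 0)
  apply this
  simpa using hU

lemma pow_nhds (m : ℕ) {U : Set ℤ} (hU : U ∈ @nhds ℤ τ 0) :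
    ∃ V ∈ @nhds ℤ τ 0, ∀ n ∈ V, ∀ i ≤ m, (2 : ℤ) ^ i * n ∈ U := by
  induction m with
  | zero => exact ⟨U, hU, fun n hn i hi => by simpa [Nat.le_zero.mp hi] using hn⟩
  | succ m ih =>
    obtain ⟨V, hV, hVU⟩ := ih
    refine ⟨V ∩ {n : ℤ | ((2 ^ (m + 1) : ℕ) : ℤ) * n ∈ U},
      Filter.inter_mem hV (mul_nhds τ _ hU), ?_⟩
    intro n hn i hi
    rcases Nat.lt_or_ge i (m + 1) with h | h
    · exact hVU n hn.1 i (by omega)
    · have : i = m + 1 := by omega
      subst this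
      have := hn.2
      simpa using this

lemma bdd_mem_dual {x : T} {U : Set ℤ} (hU : U ∈ @nhds ℤ τ 0) (hx : x ∈ Pol U) :
    x ∈ dual τ := by
  letI := τ
  haveI := hg
  rw [mem_dual]
  apply continuous_of_continuousAt_zero
  rw [ContinuousAt, map_zero, Metric.tendsto_nhds]
  intro ε hε
  obtain ⟨m, hm⟩ := exists_nat_gt (1 / ε)
  obtain ⟨V, hV, hVU⟩ := pow_nhds τ m hU
  filter_upwards [hV] with n hn
  rw [dist_zero_right, chi_apply]
  refine lt_of_le_of_lt (Pol_small hx (hVU n hn)) ?_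
  have h1 := pow_ge m
  rw [div_lt_iff₀ hε] at hm
  rw [div_lt_iff₀ (by positivity)]
  nlinarith

lemma Bs_nhds {S : Finset T} (hS : (S : Set T) ⊆ dual τ) {c : ℝ} (hc : 0 < c) :
    Bs S c ∈ @nhds ℤ τ 0 := by
  letI := τ
  haveI := hg
  have : Bs S c = ⋂ a ∈ S, {n : ℤ | ‖n • a‖ ≤ c} := by
    ext n; simp [Bs]
  rw [this]
  rw [Filter.biInter_finset_mem]
  intro a ha
  have h1 : Continuous (chi a) := (mem_dual τ).mp (hS ha)
  have h2 : Tendsto (chi a) (𝓝 0) (𝓝 0) := by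
    have := h1.tendsto 0
    rwa [map_zero] at this
  have h3 := (Metric.tendsto_nhds.mp h2) c hc
  filter_upwards [h3] with n hn
  rw [dist_zero_right, chi_apply] at hn
  exact hn.le

lemma Pol_finite (hp : Precompact τ) {U : Set ℤ} (hU : U ∈ @nhds ℤ τ 0) : (Pol U).Finite := by
  by_contra hinf
  obtain ⟨V, hV, hVU⟩ := pow_nhds τ 2 hU
  obtain ⟨F, hF, hFV⟩ := hp V hV
  obtain ⟨M, hM⟩ := hF.exists_finset_coe
  let B : ℕ := M.sup Int.natAbs
  have hB : ∀ f ∈ F, |(f : ℝ)| ≤ B := by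
    intro f hf
    have h1 : f.natAbs ≤ B := Finset.le_sup (f := Int.natAbs) (by rw [← Finset.mem_coe, hM]; exact hf)
    have h2 : |(f : ℝ)| = (f.natAbs : ℝ) := by
      rw [Nat.cast_natAbs]; push_cast; rfl
    rw [h2]
    exact_mod_cast h1
  obtain ⟨x, hx, y, hy, hne, hxy⟩ := exists_close (E := Pol U) hinf
    (δ := 1 / (16 * (B + 1))) (by positivity)
  apply hne
  rw [← sub_eq_zero]
  apply eq_zero_of_all
  intro n
  obtain ⟨f, hf, v, hv, rfl⟩ := hFV n
  have h1 : ‖v • x‖ ≤ 1 / (4 * 2 ^ 2) := Pol_small hx (hVU v hv)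
  have h2 : ‖v • y‖ ≤ 1 / (4 * 2 ^ 2) := Pol_small hy (hVU v hv)
  have h3 : ‖f • (x - y)‖ ≤ 1 / 16 := by
    refine (norm_zs _ _).trans ?_
    have h4 := hB f hf
    calc |(f : ℝ)| * ‖x - y‖ ≤ B * (1 / (16 * (B + 1))) := by gcongr
      _ ≤ 1 / 16 := by
        rw [mul_one_div, div_le_div_iff₀ (by positivity) (by norm_num)]
        nlinarith
  rw [add_smul, smul_sub v]
  have h5 := norm_add_le (f • (x - y)) (v • x - v • y)
  have h6 := norm_sub_le (v • x) (v • y)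
  norm_num at h1 h2
  linarith

lemma syn_of_nhds (hp : Precompact τ) {U : Set ℤ} (hU : U ∈ @nhds ℤ τ 0) : ∃ G, Syn U G := by
  obtain ⟨F, hF, hFV⟩ := hp U hU
  obtain ⟨M, hM⟩ := hF.exists_finset_coe
  let B : ℕ := M.sup Int.natAbs
  have hB : ∀ f ∈ F, |f| ≤ B := by
    intro f hf
    have h1 : f.natAbs ≤ B := Finset.le_sup (f := Int.natAbs) (by rw [← Finset.mem_coe, hM]; exact hf)
    rw [Int.abs_eq_natAbs]
    exact_mod_cast h1
  refine ⟨2 * B, fun t => ?_⟩
  obtain ⟨f, hf, u, hu, h⟩ := hFV (t + B)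
  have := abs_le.mp (hB f hf)
  exact ⟨u, hu, by omega, by push_cast; omega⟩

lemma dual_countable (hp : Precompact τ) (hfc : (@nhds ℤ τ 0).IsCountablyGenerated) :
    (dual τ : Set T).Countable := by
  letI := τ
  haveI := hg
  obtain ⟨U, hU⟩ := (@nhds ℤ τ 0).exists_antitone_basis
  have : (dual τ : Set T) ⊆ ⋃ n, Pol (U n) := by
    intro x hx
    have h1 : Bs ((({x} : Finset T)) : Set T) (1 / 4) ∈ @nhds ℤ τ 0 :=
      Bs_nhds τ (by simpa using hx) (by norm_num)
    obtain ⟨n, hn⟩ := hU.mem_iff.mp h1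
    rw [mem_iUnion]
    exact ⟨n, fun m hm => hn hm x (by simp)⟩
  exact (countable_iUnion fun n => (Pol_finite τ hp (hU.mem n)).countable).mono this

lemma exists_char (hT : @T2Space ℤ τ) (hl : LocallyQuasiConvex τ) {n : ℤ} (hn : n ≠ 0) :
    ∃ x ∈ dual τ, 1 / 4 < ‖n • x‖ := by
  letI := τ
  haveI := hg
  have hU : ({n}ᶜ : Set ℤ) ∈ 𝓝 (0 : ℤ) :=
    isOpen_compl_singleton.mem_nhds (by simpa using hn.symm)
  obtain ⟨V, hV, hQ, hVU⟩ := hl _ hU
  obtain ⟨χ, hχ, -, h2⟩ := hQ n (fun h => hVU h rfl)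
  refine ⟨χ 1, (mem_Chars τ).mp hχ, ?_⟩
  rw [mem_Tplus, not_le] at h2
  rw [eq_chi χ, chi_apply] at h2
  exact h2

lemma dual_infinite (hT : @T2Space ℤ τ) (hl : LocallyQuasiConvex τ) :
    (dual τ : Set T).Infinite := by
  intro hfin
  haveI : Finite (dual τ) := hfin
  have hpos : Nat.card (dual τ) ≠ 0 := Nat.card_pos.ne'
  obtain ⟨x, hx, hx2⟩ := exists_char τ hT hl (n := (Nat.card (dual τ) : ℤ))
    (by exact_mod_cast hpos)
  have h1 : Nat.card (dual τ) • (⟨x, hx⟩ : dual τ) = 0 := card_nsmul_eq_zero'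
  have h2 : Nat.card (dual τ) • x = 0 := by
    have := congrArg Subtype.val h1
    simpa only [AddSubgroup.coe_nsmul, ZeroMemClass.coe_zero] using this
  rw [natCast_zsmul, h2, norm_zero] at hx2
  norm_num at hx2

end one

/-! ## the new topology -/

section two
variable {H : AddSubgroup T} {h : ℕ → T} {r : ℕ → ℝ}

lemma W_anti {p q : ℕ} (hp : 1 ≤ p) (hpq : p ≤ q) : W h r q ⊆ W h r p := by
  have hp0 : (0 : ℝ) < p := by exact_mod_cast hp
  have h1 : (1 : ℝ) / q ≤ 1 / p := one_div_le_one_div_of_le hp0 (by exact_mod_cast hpq)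
  intro n hn
  exact ⟨fun i hi => (hn.1 i (by omega)).trans h1, fun j => (hn.2 j).trans h1⟩

/-- the filter basis of the new topology -/
def fb (h : ℕ → T) (r : ℕ → ℝ) : AddGroupFilterBasis ℤ :=
  addGroupFilterBasisOfComm {U | ∃ p : ℕ, 1 ≤ p ∧ U = W h r p}
    ⟨W h r 1, 1, le_rfl, rfl⟩
    (by
      rintro _ _ ⟨p, hp, rfl⟩ ⟨q, hq, rfl⟩
      exact ⟨W h r (max p q), ⟨max p q, le_trans hp (le_max_left _ _), rfl⟩,
        subset_inter (W_anti hp (le_max_left _ _)) (W_anti hq (le_max_right _ _))⟩)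
    (by
      rintro _ ⟨p, hp, rfl⟩
      refine ⟨fun i _ => ?_, fun j => ?_⟩ <;> simp)
    (by
      rintro _ ⟨p, hp, rfl⟩
      refine ⟨W h r (2 * p), ⟨2 * p, by omega, rfl⟩, ?_⟩
      have hp0 : (0 : ℝ) < p := by exact_mod_cast hp
      have e : (1 : ℝ) / p = 1 / ((2 * p : ℕ) : ℝ) + 1 / ((2 * p : ℕ) : ℝ) := by
        push_cast; field_simp; norm_num
      rintro _ ⟨a, ha, b, hb, rfl⟩
      refine ⟨fun i hi => ?_, fun j => ?_⟩
      · simp only
        rw [add_smul, e]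
        exact (norm_add_le _ _).trans (add_le_add (ha.1 i (by omega)) (hb.1 i (by omega)))
      · simp only
        rw [add_smul, e]
        exact (norm_add_le _ _).trans (add_le_add (ha.2 j) (hb.2 j)))
    (by
      rintro _ ⟨p, hp, rfl⟩
      refine ⟨W h r p, ⟨p, hp, rfl⟩, ?_⟩
      intro n hn
      refine ⟨fun i hi => ?_, fun j => ?_⟩
      · rw [neg_smul, norm_neg]; exact hn.1 i hi
      · rw [neg_smul, norm_neg]; exact hn.2 j)

/-- the new topology -/
def sig (h : ℕ → T) (r : ℕ → ℝ) : TopologicalSpace ℤ := (fb h r).topology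

lemma sig_group : @IsTopologicalAddGroup ℤ (sig h r) _ := (fb h r).isTopologicalAddGroup

lemma mem_sig {U : Set ℤ} : U ∈ @nhds ℤ (sig h r) 0 ↔ ∃ p : ℕ, 1 ≤ p ∧ W h r p ⊆ U := by
  unfold sig
  rw [(AddGroupFilterBasis.nhds_zero_hasBasis (fb h r)).mem_iff]
  constructor
  · rintro ⟨_, ⟨p, hp, rfl⟩, hU⟩
    exact ⟨p, hp, hU⟩
  · rintro ⟨p, hp, hU⟩
    exact ⟨_, ⟨p, hp, rfl⟩, hU⟩

lemma W_mem {p : ℕ} (hp : 1 ≤ p) : W h r p ∈ @nhds ℤ (sig h r) 0 :=
  mem_sig.mpr ⟨p, hp, Subset.rfl⟩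

lemma dual_sig (hh : range h = H)
    (hcore : ∀ p : ℕ, 1 ≤ p → ∀ x : T, (∀ n ∈ W h r p, ‖n • x‖ ≤ 1 / 4) → x ∈ H) :
    dual (sig h r) = H := by
  haveI := sig_group (h := h) (r := r)
  ext x
  constructor
  · intro hx
    have h1 : Bs ((({x} : Finset T)) : Set T) (1 / 4) ∈ @nhds ℤ (sig h r) 0 :=
      Bs_nhds (sig h r) (by simpa using hx) (by norm_num)
    obtain ⟨p, hp, hW⟩ := mem_sig.mp h1
    exact hcore p hp x fun n hn => hW hn x (by simp)
  · intro hx
    have hx' : x ∈ range h := by rw [hh]; exact hx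
    obtain ⟨i, rfl⟩ := hx'
    apply bdd_mem_dual (sig h r) (W_mem (p := i + 4) (by omega))
    intro n hn
    refine (hn.1 i (by omega)).trans ?_
    apply one_div_le_one_div_of_le (by norm_num)
    push_cast
    have : (0 : ℝ) ≤ i := Nat.cast_nonneg i
    linarith

lemma lqc_sig (hh : range h = H) (hrH : ∀ k, (r k : T) ∈ H)
    (hdual : dual (sig h r) = H) : LocallyQuasiConvex (sig h r) := by
  intro U hU
  obtain ⟨p, hp, hW⟩ := mem_sig.mp hU
  have hp0 : (0 : ℝ) < p := by exact_mod_cast hp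
  let Q : Set ℤ := {n | (∀ i < p, ‖n • h i‖ ≤ 1 / (4 * 2 ^ p)) ∧
    ∀ j, ‖n • (r j : T)‖ ≤ 1 / (4 * 2 ^ p)}
  have hpp : (p : ℝ) ≤ 4 * 2 ^ p := by
    have := pow_ge p
    have h2 : (0 : ℝ) < 2 ^ p := by positivity
    linarith
  have hQW : Q ⊆ W h r p := by
    intro n hn
    have : (1 : ℝ) / (4 * 2 ^ p) ≤ 1 / p := one_div_le_one_div_of_le hp0 hpp
    exact ⟨fun i hi => (hn.1 i hi).trans this, fun j => (hn.2 j).trans this⟩
  have hWQ : W h r (4 * 2 ^ p) ⊆ Q := by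
    intro n hn
    have hlt : p < 4 * 2 ^ p := by
      have : p < 2 ^ p := Nat.lt_two_pow_self
      omega
    refine ⟨fun i hi => ?_, fun j => ?_⟩
    · have := hn.1 i (by omega)
      push_cast at this
      exact this
    · have := hn.2 j
      push_cast at this
      exact this
  refine ⟨Q, mem_sig.mpr ⟨4 * 2 ^ p, by have := Nat.one_le_two_pow (n := p); omega, hWQ⟩, ?_, hQW.trans hW⟩
  intro n hn
  -- the witness
  have hex : ∃ a ∈ H, (∀ q ∈ Q, ‖q • a‖ ≤ 1 / (4 * 2 ^ p)) ∧ 1 / (4 * 2 ^ p) < ‖n • a‖ := by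
    by_contra hcon
    push Not at hcon
    apply hn
    refine ⟨fun i hi => hcon (h i) ?_ fun q hq => hq.1 i hi, fun j => hcon _ (hrH j)
      fun q hq => hq.2 j⟩
    have : h i ∈ (H : Set T) := by rw [← hh]; exact mem_range_self i
    exact this
  obtain ⟨a, ha, hQa, hna⟩ := hex
  obtain ⟨i, hi, hni⟩ : ∃ i ≤ p, 1 / 4 < ‖((2 : ℤ) ^ i) • (n • a)‖ := by
    by_contra hcon
    push Not at hcon
    have := le_of_pow (z := n • a) (m := p) hcon
    linarith
  refine ⟨chi (((2 : ℤ) ^ i) • a), ?_, ?_, ?_⟩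
  · rw [mem_Chars, hdual]
    simp only [chi_apply, one_smul]
    exact H.zsmul_mem ha _
  · intro q hq
    rw [mem_Tplus, chi_apply, smul_comm]
    refine (norm_zs _ _).trans ?_
    have h3 : |(((2 : ℤ) ^ i : ℤ) : ℝ)| = 2 ^ i := by push_cast; exact abs_of_pos (by positivity)
    rw [h3]
    have h4 : (2 : ℝ) ^ i ≤ 2 ^ p := pow_le_pow_right₀ (by norm_num) hi
    have h5 := hQa q hq
    calc (2 : ℝ) ^ i * ‖q • a‖ ≤ 2 ^ p * (1 / (4 * 2 ^ p)) := by gcongr
      _ = 1 / 4 := by field_simp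
  · rw [mem_Tplus, chi_apply, smul_comm, not_le]
    exact hni

end two

/-- **Main theorem.**  Every metrizable precompact locally quasi-convex group topology on `ℤ` has
a compatible Hausdorff locally quasi-convex group topology which is not coarser. -/
theorem exists_finer (τ : TopologicalSpace ℤ) (hg : @IsTopologicalAddGroup ℤ τ _)
    (hT : @T2Space ℤ τ) (hfc : (@nhds ℤ τ 0).IsCountablyGenerated) (hp : Precompact τ)
    (hl : LocallyQuasiConvex τ) :
    ∃ σ : TopologicalSpace ℤ, @IsTopologicalAddGroup ℤ σ _ ∧ @T2Space ℤ σ ∧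
      LocallyQuasiConvex σ ∧ Chars σ = Chars τ ∧ ¬ (τ ≤ σ) := by
  have hinf := dual_infinite τ hT hl
  have hcnt := dual_countable τ hp hfc
  obtain ⟨h, hh⟩ := hcnt.exists_eq_range ⟨0, (dual τ).zero_mem⟩
  have hhi : ∀ i, h i ∈ dual τ := by
    intro i
    have : h i ∈ (dual τ : Set T) := by rw [hh]; exact mem_range_self i
    exact this
  obtain ⟨r, hr0, hrH, h4, h04, hcore⟩ := core (H := dual τ) hinf hhi
    (fun S hS c hc => syn_of_nhds τ hp (Bs_nhds τ hS hc))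
    (fun S hS c hc x hx => bdd_mem_dual τ (Bs_nhds τ hS hc) hx)
  have hgs : @IsTopologicalAddGroup ℤ (sig h r) _ := sig_group
  have hds : dual (sig h r) = dual τ := dual_sig hh.symm hcore
  refine ⟨sig h r, hgs, ?_, lqc_sig hh.symm hrH hds, ?_, ?_⟩
  · refine @IsTopologicalAddGroup.t2Space_of_zero_sep ℤ (sig h r) _ hgs ?_
    intro n hn
    obtain ⟨x, hx, hx2⟩ := exists_char τ hT hl hn
    have : x ∈ range h := by rw [← hh]; exact hx
    obtain ⟨i, rfl⟩ := this
    refine ⟨W h r (i + 4), W_mem (by omega), fun hmem => ?_⟩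
    have h1 := hmem.1 i (by omega)
    have h2 : (1 : ℝ) / ((i + 4 : ℕ) : ℝ) ≤ 1 / 4 := by
      apply one_div_le_one_div_of_le (by norm_num)
      push_cast
      have : (0 : ℝ) ≤ i := Nat.cast_nonneg i
      linarith
    linarith
  · ext χ
    rw [mem_Chars, mem_Chars, hds]
  · intro hle
    have hW : W h r 4 ∈ @nhds ℤ τ 0 := nhds_mono hle (W_mem (h := h) (r := r) (by norm_num))
    have hfin := Pol_finite τ hp hW
    have hsub : range (fun k => ((r k : ℝ) : T)) ⊆ Pol (W h r 4) := by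
      rintro _ ⟨k, rfl⟩ n hn
      have := hn.2 k
      norm_num at this ⊢
      exact this
    have hrfin := hfin.subset hsub
    have h14 : ∀ k, r k ≤ 1 / 4 := fun k => (anti hr0 h4 (Nat.zero_le k)).trans h04
    have hinj : Function.Injective (fun k => ((r k : ℝ) : T)) := by
      intro a b hab
      have hab' : ((r a : ℝ) : T) = ((r b : ℝ) : T) := hab
      have e1 : ‖((r a : ℝ) : T)‖ = r a := by
        rw [norm_coe_eq, abs_of_pos (hr0 a)]
        rw [abs_of_pos (hr0 a)]; linarith [h14 a]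
      have e2 : ‖((r b : ℝ) : T)‖ = r b := by
        rw [norm_coe_eq, abs_of_pos (hr0 b)]
        rw [abs_of_pos (hr0 b)]; linarith [h14 b]
      have e3 : r a = r b := by rw [← e1, ← e2, hab']
      rcases lt_trichotomy a b with hlt | heq | hlt
      · have := anti hr0 h4 (show a + 1 ≤ b by omega)
        have := h4 a
        have := hr0 a
        linarith
      · exact heq
      · have := anti hr0 h4 (show b + 1 ≤ a by omega)
        have := h4 b
        have := hr0 b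
        linarith
    exact (Set.infinite_range_of_injective hinj) hrfin

end Pool.Agent.Q151.Mackey
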