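import Pool.Agent.Q151.Mackey.Core

/-!
# Construction of the fast null sequence
-/

set_option autoImplicit false

open Set Filter

namespace Pool.Agent.Q151.Mackey

lemma rec_exists {H : AddSubgroup T} {P : ℕ → Finset T → ℝ → Prop}
    (hP : ∀ k (S : Finset T), (S : Set T) ⊆ H → ∀ δ : ℝ, 0 < δ →
      ∃ r : ℝ, 0 < r ∧ r ≤ δ ∧ (r : T) ∈ H ∧ P k S r) :
    ∃ r : ℕ → ℝ, (∀ k, 0 < r k ∧ (r k : T) ∈ H ∧
      P k ((Finset.range k).image (fun j => (r j : T))) (r k)) ∧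
      (∀ k, r (k + 1) ≤ r k / 4) ∧ r 0 ≤ 1 / 4 := by
  classical
  choose! f hf1 hf2 hf3 hf4 using hP
  let st : ℕ → {q : Finset T × ℝ // (q.1 : Set T) ⊆ H ∧ 0 < q.2} := fun k =>
    Nat.rec ⟨(∅, 1), by simp, one_pos⟩ (fun k q =>
      ⟨(insert ((f k q.1.1 (q.1.2 / 4) : ℝ) : T) q.1.1, f k q.1.1 (q.1.2 / 4)), by
        have h4 : 0 < q.1.2 / 4 := by have := q.2.2; positivity
        refine ⟨?_, hf1 k _ q.2.1 _ h4⟩
        rw [Finset.coe_insert]
        exact Set.insert_subset (hf3 k _ q.2.1 _ h4) q.2.1⟩) k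
  have h0 : (st 0).1 = (∅, 1) := rfl
  have hs : ∀ k, (st (k + 1)).1 = (insert ((f k (st k).1.1 ((st k).1.2 / 4) : ℝ) : T) (st k).1.1,
    f k (st k).1.1 ((st k).1.2 / 4)) := fun k => rfl
  refine ⟨fun k => (st (k + 1)).1.2, ?_, ?_, ?_⟩
  · have himg : ∀ k, (st k).1.1 =
        (Finset.range k).image (fun j => (((st (j + 1)).1.2 : ℝ) : T)) := by
      intro k
      induction k with
      | zero => simp [h0]
      | succ k ih =>
        rw [Finset.range_add_one, Finset.image_insert, ← ih, hs]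
    intro k
    have h4 : 0 < (st k).1.2 / 4 := by have := (st k).2.2; positivity
    show 0 < (st (k + 1)).1.2 ∧ (((st (k + 1)).1.2 : ℝ) : T) ∈ H ∧
      P k ((Finset.range k).image (fun j => (((st (j + 1)).1.2 : ℝ) : T))) (st (k + 1)).1.2
    rw [← himg k, hs]
    exact ⟨hf1 k _ (st k).2.1 _ h4, hf3 k _ (st k).2.1 _ h4, hf4 k _ (st k).2.1 _ h4⟩
  · intro k
    have h4 : 0 < (st (k + 1)).1.2 / 4 := by have := (st (k + 1)).2.2; positivity
    show (st (k + 1 + 1)).1.2 ≤ (st (k + 1)).1.2 / 4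
    rw [hs (k + 1)]
    exact hf2 (k + 1) _ (st (k + 1)).2.1 _ h4
  · have h4 : 0 < (st 0).1.2 / 4 := by have := (st 0).2.2; positivity
    show (st (0 + 1)).1.2 ≤ 1 / 4
    rw [hs 0]
    have := hf2 0 _ (st 0).2.1 _ h4
    rw [h0] at this ⊢
    simpa using this

/-- the small constants -/
noncomputable def th (k : ℕ) : ℝ := 1 / ((k + 1) * 2 ^ (k + 2))

lemma th_pos (k : ℕ) : 0 < th k := by unfold th; positivity

/-- the first `k` characters and `S` -/
def Ak (h : ℕ → T) (k : ℕ) (S : Set T) : Set T := {a | (∃ i < k, a = h i) ∨ a ∈ S}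

/-- the properties of the step `k` -/
def Good (h : ℕ → T) (k : ℕ) (S : Finset T) (r : ℝ) : Prop :=
  ∃ G N : ℕ, Syn (Bs (Ak h k S) (th k)) G ∧ ((G : ℝ) + 2) * r ≤ 1 / (64 * (k + 1)) ∧
    N * r ≤ 1 / (k + 1) ∧
    ∀ p : ℕ, 1 ≤ p → p ≤ k → ∀ x : T,
      (∀ n ∈ Bs (Ak h p S) (1 / p), |n| ≤ N → ‖n • x‖ ≤ 1 / 4) →
        ∃ y ∈ Pol (Bs (Ak h p S) (1 / p)), ‖x - y‖ ≤ 1 / (8 * (G + 1))

lemma good_exists {H : AddSubgroup T} (hH : (H : Set T).Infinite) {h : ℕ → T}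
    (hh : ∀ i, h i ∈ H)
    (hsyn : ∀ S : Finset T, (S : Set T) ⊆ H → ∀ c : ℝ, 0 < c → ∃ G, Syn (Bs S c) G)
    (k : ℕ) (S : Finset T) (hS : (S : Set T) ⊆ H) (δ : ℝ) (hδ : 0 < δ) :
    ∃ r : ℝ, 0 < r ∧ r ≤ δ ∧ (r : T) ∈ H ∧ Good h k S r := by
  classical
  have hA : Ak h k S = (((Finset.range k).image h ∪ S : Finset T) : Set T) := by
    ext a
    simp only [Ak, mem_ofPred_eq, Finset.coe_union, Finset.coe_image, Finset.coe_range, mem_union,
      mem_image, mem_Iio, Finset.mem_coe]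
    constructor
    · rintro (⟨i, hi, rfl⟩ | h1)
      · exact Or.inl ⟨i, hi, rfl⟩
      · exact Or.inr h1
    · rintro (⟨i, hi, rfl⟩ | h1)
      · exact Or.inl ⟨i, hi, rfl⟩
      · exact Or.inr h1
  have hAH : (((Finset.range k).image h ∪ S : Finset T) : Set T) ⊆ H := by
    rw [← hA]
    rintro a (⟨i, _, rfl⟩ | h1)
    · exact hh i
    · exact hS h1
  obtain ⟨G, hG⟩ := hsyn _ hAH (th k) (th_pos k)
  rw [← hA] at hG
  have hGp : (0 : ℝ) < 1 / (8 * (G + 1)) := by positivity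
  choose N hN using fun p : ℕ => compactness (Bs (Ak h p S) (1 / p)) hGp
  let M : ℕ := (Finset.range (k + 1)).sup N
  have hMN : ∀ p ≤ k, N p ≤ M := fun p hp =>
    Finset.le_sup (f := N) (Finset.mem_range.mpr (by omega))
  obtain ⟨r, hr0, hr1, hrH⟩ := exists_small hH (δ := min δ (min
    (1 / (64 * (k + 1)) / (G + 2)) (1 / (k + 1) / (M + 1)))) (by positivity)
  rw [lt_min_iff, lt_min_iff] at hr1
  refine ⟨r, hr0, hr1.1.le, hrH, G, M, hG, ?_, ?_, ?_⟩
  · have := hr1.2.1.le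
    rw [le_div_iff₀ (by positivity)] at this
    linarith
  · have := hr1.2.2.le
    rw [le_div_iff₀ (by positivity)] at this
    nlinarith
  · intro p _ hpk x hx
    obtain ⟨y, hy, hxy⟩ := hN p x fun n hn hn2 => hx n hn (hn2.trans (by exact_mod_cast hMN p hpk))
    exact ⟨y, hy, hxy.le⟩

section
variable {H : AddSubgroup T} {h : ℕ → T} {r : ℕ → ℝ}

/-- the first `k` members of the sequence -/
noncomputable def Sk (r : ℕ → ℝ) (k : ℕ) : Finset T := by
  classical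
  exact (Finset.range k).image (fun j => (r j : T))

lemma mem_Sk {k : ℕ} {a : T} : a ∈ Sk r k ↔ ∃ j < k, (r j : T) = a := by
  classical
  simp [Sk]

lemma anti (hr : ∀ k, 0 < r k) (h4 : ∀ k, r (k + 1) ≤ r k / 4) {j k : ℕ} (hjk : j ≤ k) :
    r k ≤ r j := by
  induction k, hjk using Nat.le_induction with
  | base => exact le_rfl
  | succ k _ ih => have := h4 k; have := hr k; linarith

lemma small (h4 : ∀ k, r (k + 1) ≤ r k / 4) (h0 : r 0 ≤ 1 / 4) (k : ℕ) :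
    r k ≤ 1 / (4 * (k + 1)) := by
  induction k with
  | zero => simpa using h0
  | succ k ih =>
    have := h4 k
    push_cast
    have h5 : (1 : ℝ) / (4 * (k + 1)) / 4 ≤ 1 / (4 * (k + 1 + 1)) := by
      rw [div_div]
      apply one_div_le_one_div_of_le (by positivity)
      nlinarith
    linarith

/-- the basic neighbourhoods -/
def W (h : ℕ → T) (r : ℕ → ℝ) (p : ℕ) : Set ℤ :=
  {n | (∀ i < p, ‖n • h i‖ ≤ 1 / p) ∧ ∀ j, ‖n • (r j : T)‖ ≤ 1 / p}

lemma norm_rj {n : ℤ} {j : ℕ} (hr : 0 < r j) : ‖n • (r j : T)‖ ≤ |(n : ℝ)| * r j := by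
  rw [zsmul_coe]
  refine (norm_coe_le _).trans ?_
  rw [abs_mul, abs_of_pos hr]

lemma th_le {p k m : ℕ} (hp : 1 ≤ p) (hpk : p ≤ k) (hm : m ≤ k + 2) :
    th k ≤ (1 / p) / 2 ^ m := by
  unfold th
  rw [div_div]
  have hp0 : (0 : ℝ) < p := by exact_mod_cast hp
  apply one_div_le_one_div_of_le (by positivity)
  have h1 : (p : ℝ) ≤ k + 1 := by exact_mod_cast (by omega : p ≤ k + 1)
  have h2 : (2 : ℝ) ^ m ≤ 2 ^ (k + 2) := pow_le_pow_right₀ (by norm_num) hm
  gcongr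

lemma Ak_mono {p k : ℕ} (hpk : p ≤ k) {S S' : Set T} (hS : S ⊆ S') : Ak h p S ⊆ Ak h k S' := by
  rintro a (⟨i, hi, rfl⟩ | h1)
  · exact Or.inl ⟨i, by omega, rfl⟩
  · exact Or.inr (hS h1)

/-- step A -/
lemma stepA (hr : ∀ k, 0 < r k) (h4 : ∀ k, r (k + 1) ≤ r k / 4)
    (hG : ∀ k, Good h k (Sk r k) (r k)) {p : ℕ} (hp : 1 ≤ p) {x : T}
    (hx : ∀ n ∈ W h r p, ‖n • x‖ ≤ 1 / 4) {k : ℕ} (hk : p ≤ k) :
    ∃ y ∈ Pol (Bs (Ak h p (Sk r k)) (1 / p)), ∃ u : ℝ, (u : T) = x - y ∧ |u| ≤ p * r k := by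
  obtain ⟨G, N, hsyn, hGr, hNr, hcomp⟩ := hG k
  have hp0 : (0 : ℝ) < p := by exact_mod_cast hp
  have hpk : (p : ℝ) ≤ k + 1 := by exact_mod_cast (by omega : p ≤ k + 1)
  have hrk := hr k
  have hkp : (1 : ℝ) / (k + 1) ≤ 1 / p := one_div_le_one_div_of_le hp0 hpk
  obtain ⟨y, hy, hxy⟩ := hcomp p hp hk x (by
    intro n hn hnN
    apply hx
    refine ⟨fun i hi => hn _ (Or.inl ⟨i, hi, rfl⟩), fun j => ?_⟩
    by_cases hj : j < k
    · exact hn _ (Or.inr (mem_Sk.mpr ⟨j, hj, rfl⟩))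
    · refine (norm_rj (hr j)).trans ?_
      have h1 : |(n : ℝ)| ≤ N := by exact_mod_cast hnN
      calc |(n : ℝ)| * r j ≤ N * r k := by
            apply mul_le_mul h1 (anti hr h4 (by omega)) (hr j).le (by positivity)
        _ ≤ 1 / p := hNr.trans hkp)
  obtain ⟨u, hu, hun⟩ := exists_rep (x - y)
  refine ⟨y, hy, u, hu, ?_⟩
  have hu8 : ((G : ℝ) + 1) * |u| ≤ 1 / 8 := by
    rw [hun]
    have : ((G : ℝ) + 1) * ‖x - y‖ ≤ (G + 1) * (1 / (8 * (G + 1))) := by gcongr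
    refine this.trans (le_of_eq ?_)
    field_simp
  -- the range
  set R : ℤ := ⌊1 / (4 * p * r k)⌋ with hRdef
  have hR1 : (R : ℝ) ≤ 1 / (4 * p * r k) := Int.floor_le _
  have hR2 : 1 / (4 * p * r k) < R + 1 := Int.lt_floor_add_one _
  have hcond : ∀ n ∈ Bs (Ak h k (Sk r k)) (th k), 0 ≤ n → n ≤ R →
      ‖((n * u : ℝ) : T)‖ ≤ 1 / 8 := by
    intro n hn hn0 hnR
    have hnr : (n : ℝ) * r k ≤ 1 / (4 * p) := by
      have h1 : (n : ℝ) ≤ 1 / (4 * p * r k) := le_trans (by exact_mod_cast hnR) hR1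
      calc (n : ℝ) * r k ≤ 1 / (4 * p * r k) * r k := by gcongr
        _ = 1 / (4 * p) := by field_simp
    have hn0' : (0 : ℝ) ≤ n := by exact_mod_cast hn0
    have hth : th k ≤ 1 / (4 * p) := by
      refine (th_le (m := 2) hp hk (by omega)).trans (le_of_eq ?_)
      rw [div_div]; ring
    have hall : ∀ j, ‖n • (r j : T)‖ ≤ 1 / (4 * p) := by
      intro j
      by_cases hj : j < k
      · exact (hn _ (Or.inr (mem_Sk.mpr ⟨j, hj, rfl⟩))).trans hth
      · refine (norm_rj (hr j)).trans ?_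
        rw [abs_of_nonneg hn0']
        refine le_trans ?_ hnr
        have := anti hr h4 (show k ≤ j by omega)
        gcongr
    have hx16 : ‖n • x‖ ≤ 1 / 16 := by
      have : ‖n • x‖ ≤ 1 / (4 * 2 ^ 2) := by
        apply le_of_pow
        intro i hi
        rw [← mul_smul]
        apply hx
        have key : ∀ a : T, ‖n • a‖ ≤ 1 / (4 * p) → ‖((2 : ℤ) ^ i * n) • a‖ ≤ 1 / p := by
          intro a ha
          have h1 : n ∈ Bs {a} ((1 / p) / 2 ^ 2) := by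
            intro b hb
            rw [mem_singleton_iff] at hb
            subst hb
            refine ha.trans (le_of_eq ?_)
            rw [div_div]; ring
          exact Bs_pow h1 i hi a rfl
        refine ⟨fun i' hi' => key _ ?_, fun j => key _ (hall j)⟩
        exact (hn _ (Or.inl ⟨i', by omega, rfl⟩)).trans hth
      linarith
    have hy16 : ‖n • y‖ ≤ 1 / 16 := by
      have : ‖n • y‖ ≤ 1 / (4 * 2 ^ 2) := by
        apply Pol_small hy
        intro i hi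
        exact Bs_pow (Bs_mono (Ak_mono hk (le_refl _)) (th_le (m := 2) hp hk (by omega)) hn) i hi
      linarith
    rw [← zsmul_coe, hu, smul_sub]
    exact (norm_sub_le _ _).trans (by linarith)
  have hGk : ((G : ℝ) + 1) * r k ≤ 1 / (64 * p) := by
    have : (1 : ℝ) / (64 * (k + 1)) ≤ 1 / (64 * p) :=
      one_div_le_one_div_of_le (by positivity) (by linarith)
    nlinarith
  have hG1 : (G : ℝ) + 1 ≤ 1 / (64 * p * r k) := by
    rw [le_div_iff₀ (by positivity)]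
    rw [le_div_iff₀ (by positivity)] at hGk
    nlinarith
  have hdiff : 1 / (8 * p * r k) ≤ (R : ℝ) - G := by
    have e1 : 1 / (4 * p * r k) = 16 * (1 / (64 * p * r k)) := by field_simp; norm_num
    have e2 : 1 / (8 * p * r k) = 8 * (1 / (64 * p * r k)) := by field_simp; norm_num
    have e3 : 0 < 1 / (64 * p * r k) := by positivity
    rw [e1] at hR2
    rw [e2]
    linarith
  have hRG : (0 : ℝ) ≤ (R : ℝ) - G := le_trans (by positivity) hdiff
  have hRG' : (0 : ℤ) ≤ R - G := by exact_mod_cast hRG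
  obtain ⟨n, hn, hn1, hn2⟩ := hsyn (R - G)
  have h5 := nojump hsyn hu8 hcond n hn (by omega) (by omega)
  have h6 : (R : ℝ) - G ≤ n := by exact_mod_cast hn1
  have h7 : 1 / (8 * p * r k) * |u| ≤ 1 / 8 := by
    have := mul_le_mul_of_nonneg_right (hdiff.trans h6) (abs_nonneg u)
    linarith
  rw [div_mul_eq_mul_div, one_mul, div_le_iff₀ (by positivity)] at h7
  linarith

/-- step B -/
lemma stepB (hr : ∀ k, 0 < r k) (h14 : ∀ k, r k ≤ 1 / 4)
    (hG : ∀ k, Good h k (Sk r k) (r k)) {p : ℕ} (hp : 1 ≤ p) {k : ℕ} (hk : p ≤ k) {y y' : T}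
    (hy : y ∈ Pol (Bs (Ak h p (Sk r k)) (1 / p)))
    (hy' : y' ∈ Pol (Bs (Ak h p (Sk r (k + 1))) (1 / p))) {v : ℝ} (hv : (v : T) = y' - y)
    (hvr : |v| ≤ r k / 16) : v = 0 := by
  obtain ⟨G, N, hsyn, hGr, -, -⟩ := hG k
  have hp0 : (0 : ℝ) < p := by exact_mod_cast hp
  have hpk : (p : ℝ) ≤ k + 1 := by exact_mod_cast (by omega : p ≤ k + 1)
  have hrk := hr k
  have h14k := h14 k
  have hG64 : ((G : ℝ) + 2) * r k ≤ 1 / (64 * p) :=
    hGr.trans (one_div_le_one_div_of_le (by positivity) (by linarith))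
  have hG64' : ((G : ℝ) + 2) * r k ≤ 1 / 64 := by
    refine hGr.trans (one_div_le_one_div_of_le (by positivity) ?_)
    have : (0 : ℝ) ≤ k := Nat.cast_nonneg k
    linarith
  let A' : Set ℤ := {n | n ∈ Bs (Ak h k (Sk r k)) (th k) ∧ ‖n • (r k : T)‖ ≤ 1 / (4 * p)}
  let G' : ℕ := ⌈1 / r k⌉₊ + G + 1
  have hsyn' : Syn A' G' := by
    intro t
    set q : ℤ := ⌈(t : ℝ) * r k⌉ with hq
    have hq1 : (t : ℝ) * r k ≤ q := Int.le_ceil _
    have hq2 : (q : ℝ) < t * r k + 1 := Int.ceil_lt_add_one _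
    set t' : ℤ := ⌈(q : ℝ) / r k⌉ with ht'
    have ht1 : (q : ℝ) / r k ≤ t' := Int.le_ceil _
    have ht2 : (t' : ℝ) < q / r k + 1 := Int.ceil_lt_add_one _
    obtain ⟨n, hn, hn1, hn2⟩ := hsyn t'
    have hn1' : (t' : ℝ) ≤ n := by exact_mod_cast hn1
    have hn2' : (n : ℝ) ≤ t' + G := by exact_mod_cast hn2
    have e1 : (q : ℝ) ≤ n * r k := by
      have := ht1.trans hn1'
      rwa [div_le_iff₀ hrk] at this
    have e2 : (n : ℝ) * r k ≤ q + (G + 1) * r k := by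
      have h1 : (n : ℝ) ≤ q / r k + 1 + G := by linarith
      have h2 := mul_le_mul_of_nonneg_right h1 hrk.le
      have h3 : (q / r k + 1 + G) * r k = q + (G + 1) * r k := by field_simp; ring
      rw [h3] at h2
      exact h2
    refine ⟨n, ⟨hn, ?_⟩, ?_, ?_⟩
    · rw [zsmul_coe]
      have e3 : (((n : ℝ) * r k : ℝ) : T) = ((n * r k - q : ℝ) : T) := by
        rw [AddCircle.coe_sub]
        have : ((q : ℝ) : T) = 0 := by
          rw [AddCircle.coe_eq_zero_iff]; exact ⟨q, by simp⟩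
        rw [this, sub_zero]
      rw [e3]
      refine (norm_coe_le _).trans ?_
      rw [abs_of_nonneg (by linarith)]
      have e4 : (1 : ℝ) / (64 * p) ≤ 1 / (4 * p) :=
        one_div_le_one_div_of_le (by positivity) (by linarith)
      nlinarith
    · have : (t : ℝ) ≤ n := by
        have h1 : (t : ℝ) * r k ≤ n * r k := hq1.trans e1
        exact le_of_mul_le_mul_right h1 hrk
      exact_mod_cast this
    · have h1 : (n : ℝ) < t + 1 / r k + 1 + G := by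
        have h2 : (q : ℝ) / r k < t + 1 / r k := by
          rw [div_lt_iff₀ hrk]
          have : (t + 1 / r k) * r k = t * r k + 1 := by field_simp
          rw [this]; exact hq2
        linarith
      have h2 : (1 : ℝ) / r k ≤ ⌈1 / r k⌉₊ := Nat.le_ceil _
      have h3 : (n : ℝ) < t + (⌈1 / r k⌉₊ + G + 1 : ℕ) := by push_cast; linarith
      have h4 : n < t + (⌈1 / r k⌉₊ + G + 1 : ℕ) := by exact_mod_cast h3
      exact h4.le
  have hG' : ((G' : ℝ) + 1) * |v| ≤ 1 / 8 := by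
    have h2 : (⌈1 / r k⌉₊ : ℝ) < 1 / r k + 1 := Nat.ceil_lt_add_one (by positivity)
    have h3 : ((G' : ℝ) + 1) ≤ 1 / r k + G + 3 := by
      simp only [G']; push_cast; linarith
    have h4 : (1 / r k + G + 3) * r k = 1 + (G + 3) * r k := by field_simp; ring
    have h5 : (1 / r k + G + 3) * r k ≤ 2 := by rw [h4]; nlinarith
    have h6 : (0 : ℝ) ≤ 1 / r k + G + 3 := by positivity
    calc ((G' : ℝ) + 1) * |v| ≤ (1 / r k + G + 3) * (r k / 16) := by gcongr
      _ = ((1 / r k + G + 3) * r k) / 16 := by ring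
      _ ≤ 2 / 16 := by gcongr
      _ = 1 / 8 := by norm_num
  apply nojump_zero hsyn' hG'
  intro n hn
  have hth : n ∈ Bs (Ak h p (Sk r k)) (1 / p / 2 ^ 2) :=
    Bs_mono (Ak_mono hk (le_refl _)) (th_le (m := 2) hp hk (by omega)) hn.1
  have hy1 : ‖n • y‖ ≤ 1 / (4 * 2 ^ 2) := Pol_small hy fun i hi => Bs_pow hth i hi
  have hth' : n ∈ Bs (Ak h p (Sk r (k + 1))) (1 / p / 2 ^ 2) := by
    rintro a (⟨i, hi, rfl⟩ | ha)
    · exact hth _ (Or.inl ⟨i, hi, rfl⟩)
    · obtain ⟨j, hj, rfl⟩ := mem_Sk.mp ha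
      by_cases hjk : j < k
      · exact hth _ (Or.inr (mem_Sk.mpr ⟨j, hjk, rfl⟩))
      · have : j = k := by omega
        subst this
        refine hn.2.trans (le_of_eq ?_)
        rw [div_div]; ring
  have hy2 : ‖n • y'‖ ≤ 1 / (4 * 2 ^ 2) := Pol_small hy' fun i hi => Bs_pow hth' i hi
  rw [← zsmul_coe, hv, smul_sub]
  exact (norm_sub_le _ _).trans (by linarith)

end

end Pool.Agent.Q151.Mackey
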